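import Mathlib

namespace Pool.Agent.Helper113_rotor

/-- Local bounded solutions of the Cauchy equation on the interval from -1 to 1. -/
theorem cauchy_local (φ : ℝ → ℝ) (C : ℝ) (hb : ∀ t, |t| ≤ 1 → |φ t| ≤ C)
    (h : ∀ a b : ℝ, a ^ 2 + a * b + b ^ 2 ≤ 3 / 4 → φ a + φ b + φ (-a - b) = 0) :
    ∀ t, |t| ≤ 1 → φ t = t * φ 1 := by
  have h0 : φ 0 = 0 := by
    have := h 0 0 (by norm_num)
    norm_num at this
    linarith
  have hodd : ∀ t, |t| ≤ 1 / 2 → φ (-t) = -φ t := by
    intro t ht
    have ht' := abs_le.mp ht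
    have := h t 0 (by nlinarith [ht'.1, ht'.2])
    rw [h0] at this
    have e : -t - 0 = -t := by ring
    rw [e] at this
    linarith
  have hdbl : ∀ t, |t| ≤ 1 → φ (-t) = -2 * φ (t / 2) := by
    intro t ht
    have ht' := abs_le.mp ht
    have := h (t / 2) (t / 2) (by nlinarith [ht'.1, ht'.2])
    have e : -(t / 2) - t / 2 = -t := by ring
    rw [e] at this
    linarith
  have hadd : ∀ a b, |a| ≤ 1 / 2 → |b| ≤ 1 / 2 → |a + b| ≤ 1 / 2 → φ (a + b) = φ a + φ b := by
    intro a b ha hb' hab
    have ha' := abs_le.mp ha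
    have hb'' := abs_le.mp hb'
    have := h a b (by nlinarith [ha'.1, ha'.2, hb''.1, hb''.2])
    have e : -a - b = -(a + b) := by ring
    rw [e, hodd _ hab] at this
    linarith
  have key : ∀ n : ℕ, ∀ t, |t| ≤ 1 / 2 → |φ t - 2 * t * φ (1 / 2)| ≤ (2 * C) / 2 ^ n := by
    intro n
    induction n with
    | zero =>
      intro t ht
      have h1 := hb t (by linarith)
      have h2 := hb (1 / 2) (by rw [abs_of_pos] <;> norm_num)
      have ht' := abs_le.mp ht
      have h3 : |2 * t * φ (1 / 2)| ≤ C := by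
        rw [abs_mul]
        have : |2 * t| ≤ 1 := by rw [abs_mul]; norm_num; linarith
        nlinarith [abs_nonneg (φ (1 / 2)), abs_nonneg (2 * t)]
      have h4 := abs_sub (φ t) (2 * t * φ (1 / 2))
      simp only [pow_zero, div_one]
      linarith
    | succ n ih =>
      have small : ∀ t, |t| ≤ 1 / 4 → |φ t - 2 * t * φ (1 / 2)| ≤ (2 * C) / 2 ^ (n + 1) := by
        intro t ht
        have h2t : |2 * t| ≤ 1 / 2 := by rw [abs_mul]; norm_num; linarith
        have h1 := ih (2 * t) h2t
        have h2 : φ (2 * t) = 2 * φ t := by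
          have := hadd t t (by linarith) (by linarith) (by rw [← two_mul]; exact h2t)
          rw [two_mul, this]; ring
        have h3 : φ (2 * t) - 2 * (2 * t) * φ (1 / 2) = 2 * (φ t - 2 * t * φ (1 / 2)) := by
          rw [h2]; ring
        rw [h3, abs_mul, abs_two] at h1
        rw [pow_succ, ← div_div]
        linarith
      intro t ht
      have ht' := abs_le.mp ht
      rcases le_total t (1 / 4) with h1 | h1
      · rcases le_total (-1 / 4) t with h2 | h2
        · exact small t (abs_le.mpr ⟨by linarith, h1⟩)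
        · have := hadd t (1 / 2) ht (by norm_num [abs_of_pos]) (abs_le.mpr ⟨by linarith, by linarith⟩)
          have hs := small (t + 1 / 2) (abs_le.mpr ⟨by linarith, by linarith⟩)
          rw [this] at hs
          have e : φ t + φ (1 / 2) - 2 * (t + 1 / 2) * φ (1 / 2) = φ t - 2 * t * φ (1 / 2) := by ring
          rwa [e] at hs
      · have := hadd t (-(1 / 2)) ht (by rw [abs_neg]; norm_num [abs_of_pos])
          (abs_le.mpr ⟨by linarith, by linarith⟩)
        have hs := small (t + -(1 / 2)) (abs_le.mpr ⟨by linarith, by linarith⟩)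
        rw [this, hodd (1 / 2) (by norm_num [abs_of_pos])] at hs
        have e : φ t + -φ (1 / 2) - 2 * (t + -(1 / 2)) * φ (1 / 2) = φ t - 2 * t * φ (1 / 2) := by
          ring
        rwa [e] at hs
  have lin : ∀ t, |t| ≤ 1 / 2 → φ t = 2 * t * φ (1 / 2) := by
    intro t ht
    have h1 : Filter.Tendsto (fun n : ℕ => (2 * C) / 2 ^ n) Filter.atTop (nhds 0) := by
      have := (tendsto_pow_atTop_nhds_zero_of_lt_one (r := (1 / 2 : ℝ)) (by norm_num)
        (by norm_num)).const_mul (2 * C)
      rw [mul_zero] at this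
      refine this.congr ?_
      intro n
      rw [one_div, inv_pow, div_eq_mul_inv]
    have h2 : |φ t - 2 * t * φ (1 / 2)| ≤ 0 := ge_of_tendsto' h1 (fun n => key n t ht)
    have h3 := abs_nonpos_iff.mp h2
    linarith
  have dbl2 : ∀ t, |t| ≤ 1 → φ t = 2 * t * φ (1 / 2) := by
    intro t ht
    have h1 := hdbl (-t) (by rw [abs_neg]; exact ht)
    rw [neg_neg] at h1
    rw [h1, lin (-t / 2) (by rw [abs_div, abs_neg]; norm_num; linarith)]
    ring
  intro t ht
  rw [dbl2 t ht, dbl2 1 (by norm_num)]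
  ring

end Pool.Agent.Helper113_rotor
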