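import Mathlib
import Pool.Agent.Helper113_rotor.Cauchy

namespace Pool.Agent.Helper113_rotor

open MeasureTheory Real

/-- Rotation by the angle `θ` about the first coordinate axis, as a linear map. -/
noncomputable def rotLin (θ : ℝ) : EuclideanSpace ℝ (Fin 3) →ₗ[ℝ] EuclideanSpace ℝ (Fin 3) where
  toFun x := !₂[x 0, cos θ * x 1 - sin θ * x 2, sin θ * x 1 + cos θ * x 2]
  map_add' x y := by
    ext i
    fin_cases i <;> simp <;> ring
  map_smul' c x := by
    ext i
    fin_cases i <;> simp <;> ring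

theorem rotLin_apply (θ : ℝ) (x : EuclideanSpace ℝ (Fin 3)) :
    rotLin θ x = !₂[x 0, cos θ * x 1 - sin θ * x 2, sin θ * x 1 + cos θ * x 2] := rfl

theorem rotLin_add (a b : ℝ) (x : EuclideanSpace ℝ (Fin 3)) :
    rotLin a (rotLin b x) = rotLin (a + b) x := by
  ext i
  fin_cases i <;> simp [rotLin_apply, cos_add, sin_add] <;> ring

theorem rotLin_zero (x : EuclideanSpace ℝ (Fin 3)) : rotLin 0 x = x := by
  ext i
  fin_cases i <;> simp [rotLin_apply]

theorem norm_rotLin (θ : ℝ) (x : EuclideanSpace ℝ (Fin 3)) : ‖rotLin θ x‖ = ‖x‖ := by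
  have h : ‖rotLin θ x‖ ^ 2 = ‖x‖ ^ 2 := by
    rw [EuclideanSpace.real_norm_sq_eq, EuclideanSpace.real_norm_sq_eq]
    simp only [Fin.sum_univ_three, rotLin_apply]
    simp
    nlinarith [sin_sq_add_cos_sq θ]
  nlinarith [norm_nonneg (rotLin θ x), norm_nonneg x, sq_nonneg (‖rotLin θ x‖ - ‖x‖),
    sq_nonneg (‖rotLin θ x‖ + ‖x‖), h, abs_eq_abs.mp ((sq_eq_sq_iff_abs_eq_abs _ _).mp h)]

/-- Rotation about the first axis as a linear isometric equivalence. -/
noncomputable def rot (θ : ℝ) : EuclideanSpace ℝ (Fin 3) ≃ₗᵢ[ℝ] EuclideanSpace ℝ (Fin 3) where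
  toLinearEquiv := LinearEquiv.ofLinearMap (rotLin θ) (rotLin (-θ))
    (by ext1 x; simp [rotLin_add, rotLin_zero])
    (by ext1 x; simp [rotLin_add, rotLin_zero])
  norm_map' x := norm_rotLin θ x

theorem rot_apply (θ : ℝ) (x : EuclideanSpace ℝ (Fin 3)) :
    rot θ x = !₂[x 0, cos θ * x 1 - sin θ * x 2, sin θ * x 1 + cos θ * x 2] := rfl

theorem rot_rot (a b : ℝ) (x : EuclideanSpace ℝ (Fin 3)) : rot a (rot b x) = rot (a + b) x :=
  rotLin_add a b x

theorem rot_zero' (θ : ℝ) (x : EuclideanSpace ℝ (Fin 3)) : (rot θ x) 0 = x 0 := by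
  simp [rot_apply]

theorem continuous_rot : Continuous (fun p : ℝ × EuclideanSpace ℝ (Fin 3) => rot p.1 p.2) := by
  have : (fun p : ℝ × EuclideanSpace ℝ (Fin 3) => rot p.1 p.2) =
      fun p => !₂[p.2 0, cos p.1 * p.2 1 - sin p.1 * p.2 2, sin p.1 * p.2 1 + cos p.1 * p.2 2] := by
    funext p; rfl
  rw [this]
  apply (PiLp.continuous_toLp 2 _).comp
  apply continuous_pi
  intro i
  fin_cases i
  · simp; fun_prop
  · simp; fun_prop
  · simp; fun_prop

/-- The property used throughout: positively homogeneous and vanishing sum on balanced triples. -/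
structure Bal (F : EuclideanSpace ℝ (Fin 3) → ℝ) : Prop where
  cont : Continuous F
  hom : ∀ (c : ℝ) (x : EuclideanSpace ℝ (Fin 3)), 0 ≤ c → F (c • x) = c * F x
  bal : ∀ x y z : EuclideanSpace ℝ (Fin 3), ‖x‖ = 1 → ‖y‖ = 1 → ‖z‖ = 1 → x + y + z = 0 →
    F x + F y + F z = 0

/-- Average (integral) over rotations about the first axis. -/
noncomputable def avg (F : EuclideanSpace ℝ (Fin 3) → ℝ) (x : EuclideanSpace ℝ (Fin 3)) : ℝ :=
  ∫ θ in (0 : ℝ)..2 * π, F (rot θ x)

theorem continuous_rot_left (F : EuclideanSpace ℝ (Fin 3) → ℝ) (hF : Continuous F)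
    (x : EuclideanSpace ℝ (Fin 3)) : Continuous (fun θ => F (rot θ x)) := by
  have h2 : Continuous (fun θ : ℝ => rot θ x) := by
    simp only [rot_apply]
    apply (PiLp.continuous_toLp 2 _).comp
    apply continuous_pi
    intro i
    fin_cases i
    · simp; fun_prop
    · simp; fun_prop
    · simp; fun_prop
  exact hF.comp h2

theorem avg_rot (F : EuclideanSpace ℝ (Fin 3) → ℝ) (α : ℝ)
    (x : EuclideanSpace ℝ (Fin 3)) : avg F (rot α x) = avg F x := by
  unfold avg
  have h1 : ∀ θ, F (rot θ (rot α x)) = (fun s => F (rot s x)) (θ + α) := by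
    intro θ; simp [rot_rot]
  simp_rw [h1]
  rw [intervalIntegral.integral_comp_add_right (fun s => F (rot s x)) α]
  have hper : Function.Periodic (fun s => F (rot s x)) (2 * π) := by
    intro s
    simp only [rot_apply, cos_add_two_pi, sin_add_two_pi]
  have := hper.intervalIntegral_add_eq α 0
  rw [zero_add] at this
  rw [zero_add, add_comm (2 * π) α]
  exact this

theorem avg_bal (F : EuclideanSpace ℝ (Fin 3) → ℝ) (hF : Bal F)
    (x y z : EuclideanSpace ℝ (Fin 3)) (hx : ‖x‖ = 1) (hy : ‖y‖ = 1) (hz : ‖z‖ = 1)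
    (hs : x + y + z = 0) : avg F x + avg F y + avg F z = 0 := by
  unfold avg
  have ix := (continuous_rot_left F hF.cont x).intervalIntegrable (μ := volume) 0 (2 * π)
  have iy := (continuous_rot_left F hF.cont y).intervalIntegrable (μ := volume) 0 (2 * π)
  have iz := (continuous_rot_left F hF.cont z).intervalIntegrable (μ := volume) 0 (2 * π)
  rw [← intervalIntegral.integral_add ix iy, ← intervalIntegral.integral_add (ix.add iy) iz]
  have : ∀ θ, F (rot θ x) + F (rot θ y) + F (rot θ z) = 0 := by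
    intro θ
    apply hF.bal
    · rw [LinearIsometryEquiv.norm_map]; exact hx
    · rw [LinearIsometryEquiv.norm_map]; exact hy
    · rw [LinearIsometryEquiv.norm_map]; exact hz
    · rw [← map_add, ← map_add, hs, map_zero]
  simp only [this]
  simp

theorem avg_hom (F : EuclideanSpace ℝ (Fin 3) → ℝ) (hF : Bal F) (c : ℝ)
    (x : EuclideanSpace ℝ (Fin 3)) (hc : 0 ≤ c) : avg F (c • x) = c * avg F x := by
  unfold avg
  rw [← intervalIntegral.integral_const_mul]
  congr 1
  funext θ
  rw [map_smul, hF.hom _ _ hc]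

/-- A unit vector is a rotation of a vector in the half plane. -/
theorem exists_rot (x : EuclideanSpace ℝ (Fin 3)) (hx : ‖x‖ = 1) :
    ∃ α, x = rot α !₂[x 0, √(1 - (x 0) ^ 2), 0] := by
  have h1 : (x 0) ^ 2 + (x 1) ^ 2 + (x 2) ^ 2 = 1 := by
    have := EuclideanSpace.real_norm_sq_eq x
    rw [hx, Fin.sum_univ_three] at this
    linarith
  set w : ℂ := ⟨x 1, x 2⟩ with hw
  have hn : ‖w‖ = √(1 - (x 0) ^ 2) := by
    rw [Complex.norm_eq_sqrt_sq_add_sq]
    congr 1
    simp only [hw]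
    linarith
  refine ⟨w.arg, ?_⟩
  have hc := Complex.norm_mul_cos_arg w
  have hs := Complex.norm_mul_sin_arg w
  rw [hn] at hc hs
  ext i
  fin_cases i
  · simp [rot_apply]
  · simp [rot_apply]
    rw [mul_comm, hc]
  · simp [rot_apply]
    rw [mul_comm, hs]

end Pool.Agent.Helper113_rotor
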