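import Mathlib
import Pool.Agent.Helper113_rotor.Rot

namespace Pool.Agent.Helper113_rotor

open MeasureTheory Real

theorem avg_unit (F : EuclideanSpace ℝ (Fin 3) → ℝ)
    (x : EuclideanSpace ℝ (Fin 3)) (hx : ‖x‖ = 1) :
    avg F x = avg F !₂[x 0, √(1 - (x 0) ^ 2), 0] := by
  obtain ⟨α, hα⟩ := exists_rot x hx
  conv_lhs => rw [hα]
  rw [avg_rot]

theorem norm_curve (ρ θ : ℝ) (h0 : 0 ≤ ρ) (h1 : ρ ≤ 1) :
    ‖(!₂[ρ * cos θ, √(1 - ρ ^ 2) * cos θ, sin θ] : EuclideanSpace ℝ (Fin 3))‖ = 1 := by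
  have h : ‖(!₂[ρ * cos θ, √(1 - ρ ^ 2) * cos θ, sin θ] : EuclideanSpace ℝ (Fin 3))‖ ^ 2 = 1 := by
    rw [EuclideanSpace.real_norm_sq_eq, Fin.sum_univ_three]
    simp
    have h2 : (√(1 - ρ ^ 2)) ^ 2 = 1 - ρ ^ 2 := Real.sq_sqrt (by nlinarith)
    rw [mul_pow, mul_pow, h2]
    nlinarith [sin_sq_add_cos_sq θ]
  have h3 := norm_nonneg (!₂[ρ * cos θ, √(1 - ρ ^ 2) * cos θ, sin θ] : EuclideanSpace ℝ (Fin 3))
  nlinarith

theorem exists_bound (F : EuclideanSpace ℝ (Fin 3) → ℝ) (hF : Continuous F) :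
    ∃ C, ∀ x, ‖x‖ = 1 → |F x| ≤ C := by
  have hc : IsCompact (Metric.sphere (0 : EuclideanSpace ℝ (Fin 3)) 1) := isCompact_sphere 0 1
  obtain ⟨C, hC⟩ := hc.exists_bound_of_continuousOn hF.continuousOn
  refine ⟨C, fun x hx => ?_⟩
  have := hC x (by simp [hx])
  rwa [Real.norm_eq_abs] at this

theorem avg_bound (F : EuclideanSpace ℝ (Fin 3) → ℝ) (C : ℝ) (hC : ∀ x, ‖x‖ = 1 → |F x| ≤ C)
    (x : EuclideanSpace ℝ (Fin 3)) (hx : ‖x‖ = 1) : |avg F x| ≤ C * (2 * π) := by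
  unfold avg
  have h := intervalIntegral.norm_integral_le_of_norm_le_const (a := (0 : ℝ)) (b := 2 * π)
    (f := fun θ => F (rot θ x)) (C := C) (by
      intro θ _
      rw [Real.norm_eq_abs]
      apply hC
      rw [LinearIsometryEquiv.norm_map]
      exact hx)
  rw [Real.norm_eq_abs] at h
  refine h.trans ?_
  rw [sub_zero, abs_of_pos (by positivity)]

theorem cos_two_thirds : cos (2 * π / 3) = -1 / 2 := by
  have : 2 * π / 3 = π - π / 3 := by ring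
  rw [this, cos_pi_sub, cos_pi_div_three]
  norm_num

theorem sin_two_thirds : sin (2 * π / 3) = √3 / 2 := by
  have : 2 * π / 3 = π - π / 3 := by ring
  rw [this, sin_pi_sub, sin_pi_div_three]

theorem avg_rel (F : EuclideanSpace ℝ (Fin 3) → ℝ) (hF : Bal F) (a b : ℝ)
    (hab : a ^ 2 + a * b + b ^ 2 ≤ 3 / 4) :
    avg F !₂[a, √(1 - a ^ 2), 0] + avg F !₂[b, √(1 - b ^ 2), 0] +
      avg F !₂[-a - b, √(1 - (-a - b) ^ 2), 0] = 0 := by
  set m : ℝ := (a + 2 * b) / √3 with hm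
  have h3 : (√3) ^ 2 = 3 := Real.sq_sqrt (by norm_num)
  have h3p : 0 < √3 := Real.sqrt_pos.mpr (by norm_num)
  have hm3 : √3 * m = a + 2 * b := by rw [hm]; field_simp
  have hm2 : m ^ 2 = (a + 2 * b) ^ 2 / 3 := by rw [hm, div_pow, h3]
  set w : ℂ := ⟨a, -m⟩ with hw
  set ρ : ℝ := ‖w‖ with hρ
  set θ : ℝ := w.arg with hθ
  have hc : ρ * cos θ = a := Complex.norm_mul_cos_arg w
  have hs : ρ * sin θ = -m := Complex.norm_mul_sin_arg w
  have hρ0 : 0 ≤ ρ := norm_nonneg w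
  have hρ2 : ρ ^ 2 = a ^ 2 + m ^ 2 := by
    have : ρ ^ 2 = (ρ * cos θ) ^ 2 + (ρ * sin θ) ^ 2 := by
      nlinarith [sin_sq_add_cos_sq θ]
    rw [this, hc, hs]; ring
  have hρ1 : ρ ≤ 1 := by
    have : ρ ^ 2 ≤ 1 := by rw [hρ2, hm2]; nlinarith
    nlinarith
  have hb : ρ * cos (θ + 2 * π / 3) = b := by
    rw [cos_add, cos_two_thirds, sin_two_thirds]
    nlinarith
  have hc' : ρ * cos (θ - 2 * π / 3) = -a - b := by
    rw [cos_sub, cos_two_thirds, sin_two_thirds]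
    nlinarith
  have key := avg_bal F hF
    !₂[ρ * cos θ, √(1 - ρ ^ 2) * cos θ, sin θ]
    !₂[ρ * cos (θ + 2 * π / 3), √(1 - ρ ^ 2) * cos (θ + 2 * π / 3), sin (θ + 2 * π / 3)]
    !₂[ρ * cos (θ - 2 * π / 3), √(1 - ρ ^ 2) * cos (θ - 2 * π / 3), sin (θ - 2 * π / 3)]
    (norm_curve ρ _ hρ0 hρ1) (norm_curve ρ _ hρ0 hρ1) (norm_curve ρ _ hρ0 hρ1) (by
      have e1 : cos θ + cos (θ + 2 * π / 3) + cos (θ - 2 * π / 3) = 0 := by
        rw [cos_add, cos_sub, cos_two_thirds]; ring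
      have e2 : sin θ + sin (θ + 2 * π / 3) + sin (θ - 2 * π / 3) = 0 := by
        rw [sin_add, sin_sub, cos_two_thirds]; ring
      ext i
      fin_cases i
      · simp
        rw [← mul_add, ← mul_add, e1, mul_zero]
      · simp
        rw [← mul_add, ← mul_add, e1, mul_zero]
      · simp
        exact e2)
  rw [avg_unit F _ (norm_curve ρ _ hρ0 hρ1), avg_unit F _ (norm_curve ρ _ hρ0 hρ1),
    avg_unit F _ (norm_curve ρ _ hρ0 hρ1)] at key
  simp only [PiLp.toLp_apply, Matrix.cons_val_zero] at key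
  rw [hc, hb, hc'] at key
  exact key

theorem avg_eq_unit (F : EuclideanSpace ℝ (Fin 3) → ℝ) (hF : Bal F)
    (x : EuclideanSpace ℝ (Fin 3)) (hx : ‖x‖ = 1) :
    avg F x = 2 * π * F !₂[1, 0, 0] * x 0 := by
  obtain ⟨C, hC⟩ := exists_bound F hF.cont
  have hx0 : |x 0| ≤ 1 := by
    have := EuclideanSpace.real_norm_sq_eq x
    rw [hx, Fin.sum_univ_three] at this
    rw [abs_le]
    constructor <;> nlinarith [sq_nonneg (x 1), sq_nonneg (x 2)]
  have hC' := cauchy_local (fun t => avg F !₂[t, √(1 - t ^ 2), 0]) (C * (2 * π)) (by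
      intro t ht
      apply avg_bound F C hC
      have h : ‖(!₂[t, √(1 - t ^ 2), 0] : EuclideanSpace ℝ (Fin 3))‖ ^ 2 = 1 := by
        rw [EuclideanSpace.real_norm_sq_eq, Fin.sum_univ_three]
        simp
        have ht' := abs_le.mp ht
        rw [Real.sq_sqrt (by nlinarith [ht'.1, ht'.2])]
        ring
      have h3 := norm_nonneg (!₂[t, √(1 - t ^ 2), 0] : EuclideanSpace ℝ (Fin 3))
      nlinarith) (by
      intro a b hab
      exact avg_rel F hF a b hab) (x 0) hx0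
  rw [avg_unit F x hx]
  simp only at hC'
  rw [hC']
  have : avg F !₂[1, √(1 - 1 ^ 2), 0] = 2 * π * F !₂[1, 0, 0] := by
    unfold avg
    have h1 : ∀ θ, rot θ !₂[1, √(1 - 1 ^ 2), 0] = !₂[1, 0, 0] := by
      intro θ
      ext i
      fin_cases i <;> simp [rot_apply]
    simp only [h1]
    simp
  rw [this]
  ring

theorem avg_eq (F : EuclideanSpace ℝ (Fin 3) → ℝ) (hF : Bal F)
    (x : EuclideanSpace ℝ (Fin 3)) :
    avg F x = 2 * π * F !₂[1, 0, 0] * x 0 := by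
  by_cases hx : x = 0
  · subst hx
    have := avg_hom F hF 0 0 le_rfl
    rw [zero_smul, zero_mul] at this
    rw [this]
    simp
  · have hn : 0 < ‖x‖ := norm_pos_iff.mpr hx
    have h1 : x = ‖x‖ • (‖x‖⁻¹ • x) := by
      rw [smul_smul, mul_inv_cancel₀ hn.ne', one_smul]
    have h2 : ‖‖x‖⁻¹ • x‖ = 1 := by
      rw [norm_smul, norm_inv, norm_norm, inv_mul_cancel₀ hn.ne']
    conv_lhs => rw [h1]
    rw [avg_hom F hF _ _ hn.le, avg_eq_unit F hF _ h2]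
    simp only [PiLp.smul_apply, smul_eq_mul]
    field_simp

end Pool.Agent.Helper113_rotor
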