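import Mathlib
import Pool.Agent.Helper113_rotor.Avg

namespace Pool.Agent.Helper113_rotor

open MeasureTheory Real

/-- The closed unit ball. -/
abbrev B1 : Set (EuclideanSpace ℝ (Fin 3)) := Metric.closedBall 0 1

theorem ball_comp (φ : EuclideanSpace ℝ (Fin 3) ≃ₗᵢ[ℝ] EuclideanSpace ℝ (Fin 3))
    (g : EuclideanSpace ℝ (Fin 3) → ℝ) :
    ∫ x in B1, g (φ x) = ∫ x in B1, g x := by
  have h1 : φ ⁻¹' B1 = B1 := by
    ext x
    simp
  have h2 := (φ.measurePreserving).setIntegral_preimage_emb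
    (φ.toHomeomorph.measurableEmbedding) g B1
  rw [h1] at h2
  exact h2

theorem integral_ball_zero (F : EuclideanSpace ℝ (Fin 3) → ℝ) (hF : Bal F) :
    ∫ x in B1, F x * x 0 = F !₂[1, 0, 0] * ∫ x in B1, (x 0) ^ 2 := by
  have hpi : (0 : ℝ) < 2 * π := by positivity
  have h1 : ∀ θ : ℝ, ∫ x in B1, F (rot θ x) * x 0 = ∫ x in B1, F x * x 0 := by
    intro θ
    have := ball_comp (rot θ) (fun x => F x * x 0)
    simp only [rot_zero'] at this
    exact this
  have h2 : ∫ θ in (0 : ℝ)..2 * π, ∫ x in B1, F (rot θ x) * x 0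
      = 2 * π * ∫ x in B1, F x * x 0 := by
    simp only [h1]
    simp
  have hcont : Continuous (Function.uncurry fun (θ : ℝ) (x : EuclideanSpace ℝ (Fin 3)) =>
      F (rot θ x) * x 0) := by
    have c1 : Continuous (fun p : ℝ × EuclideanSpace ℝ (Fin 3) => F (rot p.1 p.2)) :=
      hF.cont.comp continuous_rot
    have c2 : Continuous (fun p : ℝ × EuclideanSpace ℝ (Fin 3) => p.2 0) := by fun_prop
    exact c1.mul c2
  have hint : Integrable (Function.uncurry fun (θ : ℝ) (x : EuclideanSpace ℝ (Fin 3)) =>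
      F (rot θ x) * x 0) ((volume.restrict (Set.Ioc (0 : ℝ) (2 * π))).prod
        (volume.restrict B1)) := by
    rw [Measure.prod_restrict]
    have hK : IsCompact (Set.Icc (0 : ℝ) (2 * π) ×ˢ B1) :=
      isCompact_Icc.prod (isCompact_closedBall 0 1)
    have := hcont.continuousOn.integrableOn_compact (μ := volume.prod volume) hK
    exact this.mono_set (Set.prod_mono Set.Ioc_subset_Icc_self subset_rfl)
  have h3 : ∫ θ in (0 : ℝ)..2 * π, ∫ x in B1, F (rot θ x) * x 0
      = ∫ x in B1, ∫ θ in (0 : ℝ)..2 * π, F (rot θ x) * x 0 := by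
    rw [intervalIntegral.integral_of_le hpi.le]
    simp_rw [intervalIntegral.integral_of_le hpi.le]
    exact integral_integral_swap hint
  have h4 : ∀ x : EuclideanSpace ℝ (Fin 3), ∫ θ in (0 : ℝ)..2 * π, F (rot θ x) * x 0
      = 2 * π * F !₂[1, 0, 0] * (x 0) ^ 2 := by
    intro x
    rw [intervalIntegral.integral_mul_const]
    have := avg_eq F hF x
    unfold avg at this
    rw [this]; ring
  rw [h2] at h3
  simp only [h4] at h3
  rw [integral_const_mul] at h3
  have h5 : 2 * π * (∫ x in B1, F x * x 0) = 2 * π * (F !₂[1, 0, 0] * ∫ x in B1, (x 0) ^ 2) := by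
    rw [h3]; ring
  exact mul_left_cancel₀ hpi.ne' h5

theorem kappa_pos : 0 < ∫ x in B1, (x 0) ^ 2 := by
  have hcont : Continuous (fun x : EuclideanSpace ℝ (Fin 3) => (x 0) ^ 2) := by fun_prop
  rw [setIntegral_pos_iff_support_of_nonneg_ae]
  · have hsub : Metric.ball (!₂[1 / 2, 0, 0] : EuclideanSpace ℝ (Fin 3)) (1 / 4) ⊆
        Function.support (fun x : EuclideanSpace ℝ (Fin 3) => (x 0) ^ 2) ∩ B1 := by
      intro x hx
      rw [Metric.mem_ball, dist_eq_norm] at hx
      have h1 : |x 0 - 1 / 2| ≤ ‖x - !₂[1 / 2, 0, 0]‖ := by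
        have := PiLp.norm_apply_le (x - !₂[1 / 2, 0, 0]) 0
        simpa using this
      have h2 : ‖(!₂[1 / 2, 0, 0] : EuclideanSpace ℝ (Fin 3))‖ = 1 / 2 := by
        rw [EuclideanSpace.norm_eq]
        simp [Fin.sum_univ_three]
      constructor
      · rw [Function.mem_support]
        have h3 := abs_lt.mp (lt_of_le_of_lt h1 hx)
        have : 0 < x 0 := by linarith [h3.1]
        positivity
      · rw [Metric.mem_closedBall, dist_zero_right]
        have h3 : ‖x‖ ≤ ‖x - !₂[1 / 2, 0, 0]‖ + ‖(!₂[1 / 2, 0, 0] : EuclideanSpace ℝ (Fin 3))‖ := by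
          have := norm_add_le (x - !₂[1 / 2, 0, 0]) (!₂[1 / 2, 0, 0] : EuclideanSpace ℝ (Fin 3))
          rwa [sub_add_cancel] at this
        rw [h2] at h3
        linarith
    refine lt_of_lt_of_le ?_ (measure_mono hsub)
    exact Metric.measure_ball_pos _ _ (by norm_num)
  · exact Filter.Eventually.of_forall (fun x => sq_nonneg _)
  · exact hcont.continuousOn.integrableOn_compact (isCompact_closedBall 0 1)

theorem Bal.comp {F : EuclideanSpace ℝ (Fin 3) → ℝ} (hF : Bal F)
    (φ : EuclideanSpace ℝ (Fin 3) ≃ₗᵢ[ℝ] EuclideanSpace ℝ (Fin 3)) : Bal (fun x => F (φ x)) where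
  cont := hF.cont.comp φ.continuous
  hom c x hc := by
    show F (φ (c • x)) = c * F (φ x)
    rw [map_smul, hF.hom _ _ hc]
  bal x y z hx hy hz h := by
    apply hF.bal
    · rw [LinearIsometryEquiv.norm_map]; exact hx
    · rw [LinearIsometryEquiv.norm_map]; exact hy
    · rw [LinearIsometryEquiv.norm_map]; exact hz
    · rw [← map_add, ← map_add, h, map_zero]

theorem inner_e0 (x : EuclideanSpace ℝ (Fin 3)) :
    inner ℝ x (!₂[1, 0, 0] : EuclideanSpace ℝ (Fin 3)) = x 0 := by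
  rw [PiLp.inner_apply, Fin.sum_univ_three]
  simp

theorem norm_e0 : ‖(!₂[1, 0, 0] : EuclideanSpace ℝ (Fin 3))‖ = 1 := by
  rw [EuclideanSpace.norm_eq]
  simp [Fin.sum_univ_three]

theorem integral_ball (F : EuclideanSpace ℝ (Fin 3) → ℝ) (hF : Bal F)
    (e : EuclideanSpace ℝ (Fin 3)) (he : ‖e‖ = 1) :
    ∫ x in B1, F x * inner ℝ x e = F e * ∫ x in B1, (x 0) ^ 2 := by
  set e0 : EuclideanSpace ℝ (Fin 3) := !₂[1, 0, 0] with he0
  set φ : EuclideanSpace ℝ (Fin 3) ≃ₗᵢ[ℝ] EuclideanSpace ℝ (Fin 3) :=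
    (Submodule.span ℝ {e0 - e})ᗮ.reflection with hφ
  have h1 : φ e0 = e := Submodule.reflection_sub (by rw [he, he0]; exact norm_e0)
  have h2 := integral_ball_zero (fun x => F (φ x)) (hF.comp φ)
  rw [← he0, h1] at h2
  rw [← h2]
  have h3 := ball_comp φ (fun x => F x * inner ℝ x e)
  rw [← h3]
  congr 1
  funext x
  have h4 : inner ℝ (φ x) e = x 0 := by
    rw [← h1, LinearIsometryEquiv.inner_map_map]
    exact inner_e0 x
  simp only [h4]

theorem linear_of_bal (F : EuclideanSpace ℝ (Fin 3) → ℝ) (hF : Bal F) :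
    ∃ a : EuclideanSpace ℝ (Fin 3), ∀ x, F x = inner ℝ x a := by
  set κ : ℝ := ∫ x in B1, (x 0) ^ 2 with hκ
  have hκp : 0 < κ := kappa_pos
  set v : EuclideanSpace ℝ (Fin 3) := ∫ x in B1, F x • x with hv
  have hint : Integrable (fun x : EuclideanSpace ℝ (Fin 3) => F x • x) (volume.restrict B1) := by
    have : Continuous (fun x : EuclideanSpace ℝ (Fin 3) => F x • x) := hF.cont.smul continuous_id
    exact this.continuousOn.integrableOn_compact (isCompact_closedBall 0 1)
  have unit : ∀ e : EuclideanSpace ℝ (Fin 3), ‖e‖ = 1 → F e = inner ℝ e (κ⁻¹ • v) := by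
    intro e he
    have h1 := integral_ball F hF e he
    have h2 : inner ℝ e v = ∫ x in B1, F x * inner ℝ x e := by
      rw [hv, ← integral_inner hint e]
      congr 1
      funext x
      rw [inner_smul_right, real_inner_comm]
    rw [inner_smul_right, h2, h1, ← hκ]
    field_simp
  refine ⟨κ⁻¹ • v, fun x => ?_⟩
  by_cases hx : x = 0
  · subst hx
    have := hF.hom 0 0 le_rfl
    rw [zero_smul, zero_mul] at this
    rw [this, inner_zero_left]
  · have hn : 0 < ‖x‖ := norm_pos_iff.mpr hx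
    have h1 : x = ‖x‖ • (‖x‖⁻¹ • x) := by
      rw [smul_smul, mul_inv_cancel₀ hn.ne', one_smul]
    have h2 : ‖‖x‖⁻¹ • x‖ = 1 := by
      rw [norm_smul, norm_inv, norm_norm, inv_mul_cancel₀ hn.ne']
    conv_lhs => rw [h1]
    rw [hF.hom _ _ hn.le, unit _ h2, real_inner_smul_left, ← mul_assoc,
      mul_inv_cancel₀ hn.ne', one_mul]

end Pool.Agent.Helper113_rotor
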