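import Mathlib
import Pool.Agent.Helper113_rotor.Lin

namespace Pool.Agent.Helper113_rotor

open MeasureTheory Real

theorem det_refl (w : EuclideanSpace ℝ (Fin 3)) (hw : w ≠ 0) :
    LinearMap.det (((Submodule.span ℝ {w})ᗮ.reflection.toLinearEquiv :
      EuclideanSpace ℝ (Fin 3) ≃ₗ[ℝ] EuclideanSpace ℝ (Fin 3)) :
      EuclideanSpace ℝ (Fin 3) →ₗ[ℝ] EuclideanSpace ℝ (Fin 3)) = -1 := by
  rw [Submodule.det_reflection, Submodule.orthogonal_orthogonal, finrank_span_singleton hw]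
  norm_num

theorem det_refl_or (w : EuclideanSpace ℝ (Fin 3)) :
    LinearMap.det (((Submodule.span ℝ {w})ᗮ.reflection.toLinearEquiv :
      EuclideanSpace ℝ (Fin 3) ≃ₗ[ℝ] EuclideanSpace ℝ (Fin 3)) :
      EuclideanSpace ℝ (Fin 3) →ₗ[ℝ] EuclideanSpace ℝ (Fin 3)) = 1 ∨
    LinearMap.det (((Submodule.span ℝ {w})ᗮ.reflection.toLinearEquiv :
      EuclideanSpace ℝ (Fin 3) ≃ₗ[ℝ] EuclideanSpace ℝ (Fin 3)) :
      EuclideanSpace ℝ (Fin 3) →ₗ[ℝ] EuclideanSpace ℝ (Fin 3)) = -1 := by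
  rw [Submodule.det_reflection]
  exact neg_one_pow_eq_or ℝ _

theorem det_trans (f g : EuclideanSpace ℝ (Fin 3) ≃ₗᵢ[ℝ] EuclideanSpace ℝ (Fin 3)) :
    LinearMap.det (((f.trans g).toLinearEquiv :
      EuclideanSpace ℝ (Fin 3) ≃ₗ[ℝ] EuclideanSpace ℝ (Fin 3)) :
      EuclideanSpace ℝ (Fin 3) →ₗ[ℝ] EuclideanSpace ℝ (Fin 3)) =
    LinearMap.det ((g.toLinearEquiv : EuclideanSpace ℝ (Fin 3) ≃ₗ[ℝ] EuclideanSpace ℝ (Fin 3)) :
      EuclideanSpace ℝ (Fin 3) →ₗ[ℝ] EuclideanSpace ℝ (Fin 3)) *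
    LinearMap.det ((f.toLinearEquiv : EuclideanSpace ℝ (Fin 3) ≃ₗ[ℝ] EuclideanSpace ℝ (Fin 3)) :
      EuclideanSpace ℝ (Fin 3) →ₗ[ℝ] EuclideanSpace ℝ (Fin 3)) := by
  rw [← LinearMap.det_comp]
  rfl

theorem exists_normal (u v : EuclideanSpace ℝ (Fin 3)) (hu : ‖u‖ = 1) (hv : ‖v‖ = 1)
    (huv : inner ℝ u v = -1 / 2) :
    ∃ n : EuclideanSpace ℝ (Fin 3), n ≠ 0 ∧ inner ℝ n u = 0 ∧ inner ℝ n v = 0 := by
  refine ⟨!₂[u 1 * v 2 - u 2 * v 1, u 2 * v 0 - u 0 * v 2, u 0 * v 1 - u 1 * v 0], ?_, ?_, ?_⟩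
  · intro h
    have e0 : u 1 * v 2 - u 2 * v 1 = 0 := by
      have := congrArg (fun x : EuclideanSpace ℝ (Fin 3) => x 0) h
      simpa using this
    have e1 : u 2 * v 0 - u 0 * v 2 = 0 := by
      have := congrArg (fun x : EuclideanSpace ℝ (Fin 3) => x 1) h
      simpa using this
    have e2 : u 0 * v 1 - u 1 * v 0 = 0 := by
      have := congrArg (fun x : EuclideanSpace ℝ (Fin 3) => x 2) h
      simpa using this
    have h1 := EuclideanSpace.real_norm_sq_eq u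
    have h2 := EuclideanSpace.real_norm_sq_eq v
    rw [hu, Fin.sum_univ_three] at h1
    rw [hv, Fin.sum_univ_three] at h2
    rw [PiLp.inner_apply, Fin.sum_univ_three] at huv
    simp only [RCLike.inner_apply, conj_trivial] at huv
    have key : (u 1 * v 2 - u 2 * v 1) ^ 2 + (u 2 * v 0 - u 0 * v 2) ^ 2 +
        (u 0 * v 1 - u 1 * v 0) ^ 2 = (u 0 ^ 2 + u 1 ^ 2 + u 2 ^ 2) * (v 0 ^ 2 + v 1 ^ 2 + v 2 ^ 2)
        - (v 0 * u 0 + v 1 * u 1 + v 2 * u 2) ^ 2 := by ring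
    rw [e0, e1, e2, ← h1, ← h2, huv] at key
    norm_num at key
  · rw [PiLp.inner_apply, Fin.sum_univ_three]
    simp
    ring
  · rw [PiLp.inner_apply, Fin.sum_univ_three]
    simp
    ring

theorem refl_fix (w x : EuclideanSpace ℝ (Fin 3)) (h : inner ℝ w x = 0) :
    (Submodule.span ℝ {w})ᗮ.reflection x = x := by
  rw [Submodule.reflection_eq_self_iff, Submodule.mem_orthogonal_singleton_iff_inner_right]
  exact h

/-- Two unit vectors at 120 degrees can be rotated to any two other such vectors. -/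
theorem exists_rotation (u v u' v' : EuclideanSpace ℝ (Fin 3)) (hu : ‖u‖ = 1) (hv : ‖v‖ = 1)
    (huv : inner ℝ u v = -1 / 2) (hu' : ‖u'‖ = 1) (hv' : ‖v'‖ = 1)
    (huv' : inner ℝ u' v' = -1 / 2) :
    ∃ ρ : EuclideanSpace ℝ (Fin 3) ≃ₗᵢ[ℝ] EuclideanSpace ℝ (Fin 3),
      LinearMap.det ((ρ.toLinearEquiv : EuclideanSpace ℝ (Fin 3) ≃ₗ[ℝ] EuclideanSpace ℝ (Fin 3)) :
      EuclideanSpace ℝ (Fin 3) →ₗ[ℝ] EuclideanSpace ℝ (Fin 3)) = 1 ∧ ρ u = u' ∧ ρ v = v' := by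
  set φ1 : EuclideanSpace ℝ (Fin 3) ≃ₗᵢ[ℝ] EuclideanSpace ℝ (Fin 3) :=
    (Submodule.span ℝ {u - u'})ᗮ.reflection with hφ1
  have h1 : φ1 u = u' := Submodule.reflection_sub (by rw [hu, hu'])
  set φ2 : EuclideanSpace ℝ (Fin 3) ≃ₗᵢ[ℝ] EuclideanSpace ℝ (Fin 3) :=
    (Submodule.span ℝ {φ1 v - v'})ᗮ.reflection with hφ2
  have h2 : φ2 (φ1 v) = v' := Submodule.reflection_sub (by
    rw [LinearIsometryEquiv.norm_map, hv, hv'])
  have h3 : φ2 u' = u' := by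
    apply refl_fix
    rw [inner_sub_left, real_inner_comm, real_inner_comm u' v']
    have : inner ℝ u' (φ1 v) = inner ℝ u v := by
      rw [← h1, LinearIsometryEquiv.inner_map_map]
    rw [this, huv, huv', sub_self]
  obtain ⟨n, hn, hnu, hnv⟩ := exists_normal u' v' hu' hv' huv'
  set φ3 : EuclideanSpace ℝ (Fin 3) ≃ₗᵢ[ℝ] EuclideanSpace ℝ (Fin 3) :=
    (Submodule.span ℝ {n})ᗮ.reflection with hφ3
  have h4 : φ3 u' = u' := refl_fix n u' hnu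
  have h5 : φ3 v' = v' := refl_fix n v' hnv
  have d3 := det_refl n hn
  have d1 := det_refl_or (u - u')
  have d2 := det_refl_or (φ1 v - v')
  rw [← hφ1] at d1
  rw [← hφ2] at d2
  rw [← hφ3] at d3
  have d12 := det_trans φ1 φ2
  have hcase : LinearMap.det (((φ1.trans φ2).toLinearEquiv :
      EuclideanSpace ℝ (Fin 3) ≃ₗ[ℝ] EuclideanSpace ℝ (Fin 3)) :
      EuclideanSpace ℝ (Fin 3) →ₗ[ℝ] EuclideanSpace ℝ (Fin 3)) = 1 ∨
      LinearMap.det (((φ1.trans φ2).toLinearEquiv :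
      EuclideanSpace ℝ (Fin 3) ≃ₗ[ℝ] EuclideanSpace ℝ (Fin 3)) :
      EuclideanSpace ℝ (Fin 3) →ₗ[ℝ] EuclideanSpace ℝ (Fin 3)) = -1 := by
    rw [d12]
    rcases d1 with d1 | d1 <;> rcases d2 with d2 | d2 <;> rw [d1, d2] <;> norm_num
  rcases hcase with hc | hc
  · refine ⟨φ1.trans φ2, hc, ?_, ?_⟩
    · rw [LinearIsometryEquiv.trans_apply, h1, h3]
    · rw [LinearIsometryEquiv.trans_apply, h2]
  · refine ⟨(φ1.trans φ2).trans φ3, ?_, ?_, ?_⟩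
    · rw [det_trans, hc, d3]; norm_num
    · rw [LinearIsometryEquiv.trans_apply, LinearIsometryEquiv.trans_apply, h1, h3, h4]
    · rw [LinearIsometryEquiv.trans_apply, LinearIsometryEquiv.trans_apply, h2, h5]

end Pool.Agent.Helper113_rotor
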