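import Mathlib
import Pool.Agent.Helper113_rotor.Iso

namespace Pool.Agent.Helper113_rotor

open MeasureTheory Real

/-- Support function. -/
noncomputable def supp (K : Set (EuclideanSpace ℝ (Fin 3))) (v : EuclideanSpace ℝ (Fin 3)) : ℝ :=
  sSup ((fun x => inner ℝ x v) '' K)

theorem supp_continuous (K : Set (EuclideanSpace ℝ (Fin 3))) (hK : IsCompact K) :
    Continuous (supp K) := by
  unfold supp
  exact hK.continuous_sSup (f := fun (v x : EuclideanSpace ℝ (Fin 3)) => inner ℝ x v)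
    (by fun_prop)

theorem le_supp (K : Set (EuclideanSpace ℝ (Fin 3))) (hK : IsCompact K)
    (v x : EuclideanSpace ℝ (Fin 3)) (hx : x ∈ K) : inner ℝ x v ≤ supp K v := by
  apply le_csSup
  · exact (hK.image (by fun_prop : Continuous fun x => inner ℝ x v)).bddAbove
  · exact ⟨x, hx, rfl⟩

theorem supp_eq (K : Set (EuclideanSpace ℝ (Fin 3)))
    (v : EuclideanSpace ℝ (Fin 3)) (m : ℝ) (h1 : ∀ x ∈ K, inner ℝ x v ≤ m)
    (h2 : ∃ x ∈ K, inner ℝ x v = m) : supp K v = m := by
  apply le_antisymm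
  · apply csSup_le
    · obtain ⟨x, hx, _⟩ := h2
      exact ⟨_, x, hx, rfl⟩
    · rintro _ ⟨x, hx, rfl⟩
      exact h1 x hx
  · obtain ⟨x, hx, hxm⟩ := h2
    rw [← hxm]
    apply le_csSup
    · refine ⟨m, ?_⟩
      rintro _ ⟨y, hy, rfl⟩
      exact h1 y hy
    · exact ⟨x, hx, rfl⟩

theorem supp_attained (K : Set (EuclideanSpace ℝ (Fin 3))) (hK : IsCompact K) (hne : K.Nonempty)
    (v : EuclideanSpace ℝ (Fin 3)) : ∃ x ∈ K, inner ℝ x v = supp K v := by
  obtain ⟨x, hx, hmax⟩ := hK.exists_isMaxOn hne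
    (by fun_prop : ContinuousOn (fun x => inner ℝ x v) K)
  refine ⟨x, hx, ?_⟩
  symm
  apply supp_eq
  · intro y hy
    exact hmax hy
  · exact ⟨x, hx, rfl⟩

theorem supp_hom (K : Set (EuclideanSpace ℝ (Fin 3))) (hK : IsCompact K) (hne : K.Nonempty)
    (c : ℝ) (v : EuclideanSpace ℝ (Fin 3)) (hc : 0 ≤ c) : supp K (c • v) = c * supp K v := by
  obtain ⟨x, hx, hxm⟩ := supp_attained K hK hne v
  apply supp_eq
  · intro y hy
    rw [inner_smul_right]
    exact mul_le_mul_of_nonneg_left (le_supp K hK v y hy) hc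
  · exact ⟨x, hx, by rw [inner_smul_right, hxm]⟩

/-- A compact convex set whose support function is that of a ball is the ball. -/
theorem eq_ball_of_supp (K : Set (EuclideanSpace ℝ (Fin 3))) (hK : IsCompact K)
    (hconv : Convex ℝ K) (hne : K.Nonempty) (a : EuclideanSpace ℝ (Fin 3)) (r : ℝ)
    (hr : 0 ≤ r) (h : ∀ v, supp K v = inner ℝ v a + r * ‖v‖) : K = Metric.closedBall a r := by
  apply Set.Subset.antisymm
  · intro x hx
    rw [Metric.mem_closedBall, dist_eq_norm]
    have h1 := le_supp K hK (x - a) x hx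
    rw [h (x - a)] at h1
    have h2 : inner ℝ x (x - a) - inner ℝ (x - a) a = ‖x - a‖ ^ 2 := by
      rw [real_inner_comm (x - a) x, ← inner_sub_right, real_inner_self_eq_norm_sq]
    have h3 : ‖x - a‖ ^ 2 ≤ r * ‖x - a‖ := by linarith
    by_cases h0 : ‖x - a‖ = 0
    · rw [h0]; exact hr
    · have hp : 0 < ‖x - a‖ := lt_of_le_of_ne (norm_nonneg _) (Ne.symm h0)
      have : ‖x - a‖ * ‖x - a‖ ≤ r * ‖x - a‖ := by rw [← sq]; exact h3
      exact le_of_mul_le_mul_right this hp
  · intro x hx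
    by_contra hxK
    obtain ⟨f, u, hf1, hf2⟩ := geometric_hahn_banach_closed_point hconv hK.isClosed hxK
    set v := (InnerProductSpace.toDual ℝ (EuclideanSpace ℝ (Fin 3))).symm f with hv
    have hfv : ∀ y, f y = inner ℝ y v := by
      intro y
      rw [real_inner_comm, hv, InnerProductSpace.toDual_symm_apply]
    obtain ⟨y, hy, hym⟩ := supp_attained K hK hne v
    have h1 := hf1 y hy
    rw [hfv, hym, h v] at h1
    rw [hfv] at hf2
    rw [Metric.mem_closedBall, dist_eq_norm] at hx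
    have h2 : inner ℝ (x - a) v ≤ ‖x - a‖ * ‖v‖ := real_inner_le_norm _ _
    rw [inner_sub_left] at h2
    have h3 : ‖x - a‖ * ‖v‖ ≤ r * ‖v‖ := mul_le_mul_of_nonneg_right hx (norm_nonneg _)
    rw [real_inner_comm] at h1
    linarith

end Pool.Agent.Helper113_rotor
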